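import Mathlib

set_option autoImplicit false

namespace Pool.Agent.TH226.LB

open Finset

/-- the recursive bound: `M r 0 = 0`, `M r (j + 1) = M r j + r ^ C(M r j, 2 j) + 1` -/
def M (r : ℕ) : ℕ → ℕ
  | 0 => 0
  | j + 1 => M r j + (r ^ ((M r j).choose (2 * j)) + 1)

theorem core {α : Type} [DecidableEq α] {r : ℕ} (c : Finset α → Fin r) :
    ∀ (j : ℕ) (X R : Finset α), Disjoint X R → M r j ≤ X.card →
      ∃ U : Finset α, U ⊆ X ∧ U.card = 2 * j ∧
        (U.image fun x => c ((U ∪ R).erase x)).card ≤ j := by
  intro j
  induction j with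
  | zero =>
    intro X R _ _
    exact ⟨∅, by simp, by simp, by simp⟩
  | succ j ih =>
    intro X R hXR hM
    rw [M] at hM
    obtain ⟨X', hX', hc'⟩ := Finset.exists_subset_card_eq (s := X) (n := M r j) (by omega)
    have hW : r ^ ((M r j).choose (2 * j)) < (X \ X').card := by
      rw [Finset.card_sdiff_of_subset hX', hc']
      omega
    -- pigeonhole
    obtain ⟨y, hy, y', hy', hne, heq⟩ : ∃ y ∈ X \ X', ∃ y' ∈ X \ X', y ≠ y' ∧
        (fun U : ↥(X'.powersetCard (2 * j)) => c (insert y ((U : Finset α) ∪ R))) =
        (fun U : ↥(X'.powersetCard (2 * j)) => c (insert y' ((U : Finset α) ∪ R))) := by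
      have h1 : (Finset.univ : Finset (↥(X'.powersetCard (2 * j)) → Fin r)).card <
          (X \ X').card := by
        rw [Finset.card_univ, Fintype.card_fun, Fintype.card_fin, Fintype.card_coe,
          Finset.card_powersetCard, hc']
        exact hW
      exact Finset.exists_ne_map_eq_of_card_lt_of_maps_to h1 (fun a _ => Finset.mem_univ _)
    have hyX : y ∈ X ∧ y ∉ X' := by simpa using hy
    have hyX' : y' ∈ X ∧ y' ∉ X' := by simpa using hy'
    have hyR : y ∉ R := Finset.disjoint_left.1 hXR hyX.1
    have hyR' : y' ∉ R := Finset.disjoint_left.1 hXR hyX'.1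
    obtain ⟨U, hU, hUc, hUi⟩ := ih X' (insert y (insert y' R)) (by
      rw [Finset.disjoint_left]
      intro x hx hx'
      rw [Finset.mem_insert, Finset.mem_insert] at hx'
      rcases hx' with rfl | rfl | h
      · exact hyX.2 hx
      · exact hyX'.2 hx
      · exact Finset.disjoint_left.1 hXR (hX' hx) h) (by rw [hc'])
    have hyU : y ∉ U := fun h => hyX.2 (hU h)
    have hyU' : y' ∉ U := fun h => hyX'.2 (hU h)
    refine ⟨insert y (insert y' U), ?_, ?_, ?_⟩
    · intro x hx
      rw [Finset.mem_insert, Finset.mem_insert] at hx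
      rcases hx with rfl | rfl | h
      · exact hyX.1
      · exact hyX'.1
      · exact hX' (hU h)
    · rw [Finset.card_insert_of_notMem (by simp [hne, hyU]),
        Finset.card_insert_of_notMem hyU', hUc]
      ring
    · have hset : insert y (insert y' U) ∪ R = U ∪ insert y (insert y' R) := by
        ext x; simp only [Finset.mem_union, Finset.mem_insert]; tauto
      have h2 := congrFun heq ⟨U, Finset.mem_powersetCard.2 ⟨hU, hUc⟩⟩
      simp only at h2
      have e1 : (insert y (insert y' U) ∪ R).erase y' = insert y (U ∪ R) := by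
        ext x; simp only [Finset.mem_erase, Finset.mem_union, Finset.mem_insert]
        constructor
        · rintro ⟨h, (h1 | h1 | h1) | h1⟩ <;> tauto
        · rintro (h | h | h)
          · exact ⟨by rw [h]; exact hne, by tauto⟩
          · exact ⟨by rintro rfl; exact hyU' h, by tauto⟩
          · exact ⟨by rintro rfl; exact hyR' h, by tauto⟩
      have e2 : (insert y (insert y' U) ∪ R).erase y = insert y' (U ∪ R) := by
        ext x; simp only [Finset.mem_erase, Finset.mem_union, Finset.mem_insert]
        constructor
        · rintro ⟨h, (h1 | h1 | h1) | h1⟩ <;> tauto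
        · rintro (h | h | h)
          · exact ⟨by rw [h]; exact hne.symm, by tauto⟩
          · exact ⟨by rintro rfl; exact hyU h, by tauto⟩
          · exact ⟨by rintro rfl; exact hyR h, by tauto⟩
      have hsub : ((insert y (insert y' U)).image
          fun x => c ((insert y (insert y' U) ∪ R).erase x)) ⊆
          insert (c (insert y (U ∪ R)))
            (U.image fun x => c ((U ∪ insert y (insert y' R)).erase x)) := by
        intro z hz
        rw [Finset.mem_image] at hz
        obtain ⟨x, hx, rfl⟩ := hz
        rw [Finset.mem_insert, Finset.mem_insert] at hx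
        rcases hx with rfl | rfl | h
        · rw [e2, ← h2]; exact Finset.mem_insert_self _ _
        · rw [e1]; exact Finset.mem_insert_self _ _
        · rw [hset]
          exact Finset.mem_insert_of_mem (Finset.mem_image_of_mem _ h)
      calc _ ≤ _ := Finset.card_le_card hsub
        _ ≤ _ := Finset.card_insert_le _ _
        _ ≤ j + 1 := by omega

/-- a colouring of the `(2 d - 1)`-sets in which every `2 d`-set has `d + 1` colours exists only for
`n < M r d` -/
theorem bound {d n r : ℕ} (hd : 1 ≤ d) (c : Finset (Fin n) → Fin r)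
    (hc : ∀ S : Finset (Fin n), S.card = 2 * d →
      d + 1 ≤ ((S.powersetCard (2 * d - 1)).image c).card) : n < M r d := by
  by_contra hn
  obtain ⟨U, -, hUc, hUi⟩ := core c d Finset.univ ∅ (by simp) (by simpa using hn)
  have h1 := hc U hUc
  have h2 : (U.powersetCard (2 * d - 1)).image c ⊆ U.image fun x => c ((U ∪ ∅).erase x) := by
    intro z hz
    rw [Finset.mem_image] at hz
    obtain ⟨T, hT, rfl⟩ := hz
    rw [Finset.mem_powersetCard] at hT
    have h3 : (U \ T).card = 1 := by
      rw [Finset.card_sdiff_of_subset hT.1, hUc, hT.2]; omega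
    obtain ⟨x, hx⟩ := Finset.card_eq_one.1 h3
    have hxU : x ∈ U := by
      have : x ∈ U \ T := by rw [hx]; exact Finset.mem_singleton_self x
      exact (Finset.mem_sdiff.1 this).1
    rw [Finset.mem_image]
    refine ⟨x, hxU, ?_⟩
    congr 1
    rw [Finset.union_empty, Finset.erase_eq, ← hx, Finset.sdiff_sdiff_eq_self hT.1]
  have h3 := Finset.card_le_card h2
  omega

end Pool.Agent.TH226.LB
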