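import Mathlib
import Pool.Agent.TH226.LB.Core

set_option autoImplicit false

namespace Pool.Agent.TH226.LB

open Filter Real

/-- the tower function -/
noncomputable def tw : ℕ → ℝ → ℝ
  | 0, x => x
  | k + 1, x => (2 : ℝ) ^ (tw k x)

lemma tw_mono (k : ℕ) {x y : ℝ} (h : x ≤ y) : tw k x ≤ tw k y := by
  induction k with
  | zero => simpa [tw] using h
  | succ k ih =>
    rw [tw, tw]
    exact Real.rpow_le_rpow_of_exponent_le (by norm_num) ih

lemma tw_one (k : ℕ) {x : ℝ} (h : 1 ≤ x) : 1 ≤ tw k x := by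
  induction k with
  | zero => simpa [tw] using h
  | succ k ih =>
    rw [tw]
    exact Real.one_le_rpow (by norm_num) (by linarith)

lemma tw_mul (e : ℕ) (he : 1 ≤ e) (k : ℕ) {x : ℝ} (h : 1 ≤ x) :
    (e : ℝ) * tw k x ≤ tw k (e * x) := by
  induction k with
  | zero => simp [tw]
  | succ k ih =>
    rw [tw, tw]
    have hz := tw_one k h
    have h1 : (e : ℝ) ≤ (2 : ℝ) ^ (((e : ℝ) - 1) * tw k x) := by
      obtain ⟨a, rfl⟩ : ∃ a, e = a + 1 := ⟨e - 1, by omega⟩
      have h2 : ((a + 1 : ℕ) : ℝ) ≤ (2 : ℝ) ^ (a : ℝ) := by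
        rw [Real.rpow_natCast]
        exact_mod_cast Nat.succ_le_of_lt (Nat.lt_two_pow_self)
      refine h2.trans (Real.rpow_le_rpow_of_exponent_le (by norm_num) ?_)
      push_cast
      have : (0 : ℝ) ≤ a := Nat.cast_nonneg a
      nlinarith
    calc (e : ℝ) * (2 : ℝ) ^ (tw k x)
        ≤ (2 : ℝ) ^ (((e : ℝ) - 1) * tw k x) * (2 : ℝ) ^ (tw k x) := by gcongr
      _ = (2 : ℝ) ^ ((e : ℝ) * tw k x) := by
        rw [← Real.rpow_add (by norm_num)]; congr 1; ring
      _ ≤ _ := Real.rpow_le_rpow_of_exponent_le (by norm_num) ih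

lemma tw_pow (e : ℕ) (he : 1 ≤ e) (k : ℕ) {x : ℝ} (h : 1 ≤ x) :
    (tw (k + 1) x) ^ e ≤ tw (k + 1) (e * x) := by
  rw [tw, tw, ← Real.rpow_natCast, ← Real.rpow_mul (by norm_num)]
  refine Real.rpow_le_rpow_of_exponent_le (by norm_num) ?_
  rw [mul_comm]
  exact tw_mul e he k h

lemma M_one (r : ℕ) : M r 1 = r + 1 := by simp [M]

lemma M_ge {r : ℕ} (j : ℕ) : r + 1 ≤ M r (j + 1) := by
  induction j with
  | zero => rw [M_one]
  | succ j ih => rw [M]; omega

lemma M_step {r : ℕ} (hr : 1 ≤ r) (j : ℕ) :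
    M r (j + 2) ≤ 2 ^ ((M r (j + 1)) ^ (2 * j + 4)) := by
  rw [M]
  have hm : r + 1 ≤ M r (j + 1) := M_ge j
  generalize M r (j + 1) = m at hm
  have h1 : r ≤ 2 ^ m := by
    have := (Nat.lt_two_pow_self (n := m)); omega
  have h2 : r ^ (m.choose (2 * (j + 1))) ≤ 2 ^ (m ^ (2 * j + 3)) := by
    calc r ^ (m.choose (2 * (j + 1))) ≤ (2 ^ m) ^ (m.choose (2 * (j + 1))) :=
          Nat.pow_le_pow_left h1 _
      _ = 2 ^ (m * m.choose (2 * (j + 1))) := by rw [← pow_mul]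
      _ ≤ 2 ^ (m ^ (2 * j + 3)) := by
        refine Nat.pow_le_pow_right (by norm_num) ?_
        calc m * m.choose (2 * (j + 1)) ≤ m * m ^ (2 * (j + 1)) :=
              Nat.mul_le_mul_left _ (Nat.choose_le_pow _ _)
          _ = m ^ (2 * j + 3) := by ring
  have h3 : m + 1 ≤ 2 ^ (m ^ (2 * j + 3)) := by
    have h4 : m ≤ m ^ (2 * j + 3) := Nat.le_self_pow (by omega) m
    calc m + 1 ≤ 2 ^ m := Nat.lt_two_pow_self
      _ ≤ _ := Nat.pow_le_pow_right (by norm_num) h4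
  have h5 : m ^ (2 * j + 3) + 1 ≤ m ^ (2 * j + 4) := by
    have h6 : 1 ≤ m ^ (2 * j + 3) := Nat.one_le_pow _ _ (by omega)
    have h7 : m ^ (2 * j + 4) = m ^ (2 * j + 3) * m := by ring
    have h8 : m ^ (2 * j + 3) * 2 ≤ m ^ (2 * j + 3) * m := Nat.mul_le_mul_left _ (by omega)
    omega
  calc m + (r ^ (m.choose (2 * (j + 1))) + 1) ≤ 2 ^ (m ^ (2 * j + 3)) + 2 ^ (m ^ (2 * j + 3)) := by
        omega
    _ = 2 ^ (m ^ (2 * j + 3) + 1) := by ring
    _ ≤ _ := Nat.pow_le_pow_right (by norm_num) h5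

/-- the quantity `(r + 1) ^ 2 log (r + 1)` -/
noncomputable def g (r : ℕ) : ℝ := ((r : ℝ) + 1) ^ 2 * Real.logb 2 ((r : ℝ) + 1)

lemma logb_ge {r : ℕ} (hr : 1 ≤ r) : 1 ≤ Real.logb 2 ((r : ℝ) + 1) := by
  have h : (1 : ℝ) ≤ r := by exact_mod_cast hr
  rw [Real.le_logb_iff_rpow_le (by norm_num) (by linarith), Real.rpow_one]
  linarith

lemma g_ge {r : ℕ} (hr : 1 ≤ r) : (r : ℝ) + 1 ≤ g r ∧ 1 ≤ g r := by
  have h : (1 : ℝ) ≤ r := by exact_mod_cast hr
  have h1 := logb_ge hr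
  unfold g
  constructor
  · nlinarith [mul_le_mul_of_nonneg_left h1 (by positivity : (0:ℝ) ≤ ((r : ℝ) + 1) ^ 2)]
  · nlinarith [mul_le_mul_of_nonneg_left h1 (by positivity : (0:ℝ) ≤ ((r : ℝ) + 1) ^ 2)]

lemma M_two {r : ℕ} (hr : 1 ≤ r) : (M r 2 : ℝ) ≤ tw 1 (g r) := by
  have hM : M r 2 ≤ (r + 1) ^ ((r + 1) ^ 2) := by
    have e : M r 2 = (r + 1) + (r ^ ((r + 1).choose 2) + 1) := by
      rw [M, M_one]
    rw [e]
    have h1 : r ^ ((r + 1).choose 2) ≤ (r + 1) ^ ((r + 1).choose 2) :=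
      Nat.pow_le_pow_left (by omega) _
    have h2 : (r + 1).choose 2 + 2 ≤ (r + 1) ^ 2 := by
      rw [Nat.choose_two_right]
      have h3 : (r + 1) * (r + 1 - 1) / 2 ≤ (r + 1) * r / 2 := by simp
      have h4 : (r + 1) * r / 2 * 2 ≤ (r + 1) * r := Nat.div_mul_le_self _ _
      nlinarith
    have h5 : (r + 1) ^ ((r + 1).choose 2) * (r + 1) ^ 2 ≤ (r + 1) ^ ((r + 1) ^ 2) := by
      rw [← pow_add]
      exact Nat.pow_le_pow_right (by omega) h2
    have h6 : 1 ≤ (r + 1) ^ ((r + 1).choose 2) := Nat.one_le_pow _ _ (by omega)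
    have h7 : (r + 1) + (r ^ ((r + 1).choose 2) + 1) ≤ (r + 1) ^ ((r + 1).choose 2) * (r + 1) ^ 2 := by
      have h8 : (r + 1) ^ ((r + 1).choose 2) * 4 ≤ (r + 1) ^ ((r + 1).choose 2) * (r + 1) ^ 2 :=
        Nat.mul_le_mul_left _ (by nlinarith)
      have h9 : (r + 1) ≤ (r + 1) ^ ((r + 1).choose 2) := by
        refine Nat.le_self_pow ?_ _
        have : 1 ≤ (r + 1).choose 2 := Nat.choose_pos (by omega)
        omega
      omega
    omega
  have h1 : (M r 2 : ℝ) ≤ (((r + 1) ^ ((r + 1) ^ 2) : ℕ) : ℝ) := by exact_mod_cast hM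
  refine h1.trans (le_of_eq ?_)
  rw [tw, tw, g, mul_comm, Real.rpow_mul (by norm_num),
    Real.rpow_logb (by norm_num) (by norm_num) (by positivity)]
  push_cast
  rw [← Real.rpow_natCast]
  push_cast
  rfl

lemma M_tw (j : ℕ) : ∃ C : ℝ, 1 ≤ C ∧ ∀ r : ℕ, 1 ≤ r → (M r (j + 1) : ℝ) ≤ tw j (C * g r) := by
  induction j with
  | zero =>
    refine ⟨1, le_refl _, fun r hr => ?_⟩
    rw [M_one, one_mul, tw]
    push_cast
    exact (g_ge hr).1
  | succ j ih =>
    rcases Nat.eq_zero_or_pos j with rfl | hj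
    · refine ⟨1, le_refl _, fun r hr => ?_⟩
      rw [one_mul]
      exact M_two hr
    · obtain ⟨C, hC, h⟩ := ih
      refine ⟨(2 * j + 4 : ℕ) * C, ?_, fun r hr => ?_⟩
      · have : (1 : ℝ) ≤ (2 * j + 4 : ℕ) := by
          exact_mod_cast (by omega : 1 ≤ 2 * j + 4)
        nlinarith
      · have h1 : (M r (j + 2) : ℝ) ≤ (2 : ℝ) ^ (((M r (j + 1) : ℝ)) ^ (2 * j + 4)) := by
          have h2 := M_step hr j
          have h3 : (M r (j + 2) : ℝ) ≤ ((2 ^ ((M r (j + 1)) ^ (2 * j + 4)) : ℕ) : ℝ) := by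
            exact_mod_cast h2
          refine h3.trans (le_of_eq ?_)
          push_cast
          rw [← Real.rpow_natCast]
          push_cast
          rfl
        have hx : 1 ≤ C * g r := by nlinarith [(g_ge hr).2]
        obtain ⟨i, rfl⟩ : ∃ i, j = i + 1 := ⟨j - 1, by omega⟩
        refine h1.trans ?_
        rw [show ((2 * (i + 1) + 4 : ℕ) : ℝ) * C * g r = ((2 * (i + 1) + 4 : ℕ) : ℝ) * (C * g r)
          by ring]
        rw [tw]
        refine Real.rpow_le_rpow_of_exponent_le (by norm_num) ?_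
        refine le_trans ?_ (tw_pow (2 * (i + 1) + 4) (by omega) i hx)
        exact pow_le_pow_left₀ (Nat.cast_nonneg _) (h r hr) _

lemma iter_le (k : ℕ) : ∀ (n x : ℝ), n ≤ tw k x → (∀ i < k, 0 < (Real.logb 2)^[i] n) →
    (Real.logb 2)^[k] n ≤ x := by
  induction k with
  | zero => intro n x h _; simpa [tw] using h
  | succ k ih =>
    intro n x h hp
    rw [Function.iterate_succ_apply]
    refine ih _ _ ?_ fun i hi => ?_
    · have h0 : 0 < n := hp 0 (by omega)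
      rw [tw] at h
      rwa [Real.logb_le_iff_le_rpow (by norm_num) h0]
    · have := hp (i + 1) (by omega)
      rwa [Function.iterate_succ_apply] at this

lemma tend (k : ℕ) : Tendsto (fun n : ℕ => (Real.logb 2)^[k] (n : ℝ)) atTop atTop := by
  induction k with
  | zero => simpa using tendsto_natCast_atTop_atTop
  | succ k ih =>
    have h := (Real.tendsto_logb_atTop (b := 2) (by norm_num)).comp ih
    refine h.congr fun n => ?_
    rw [Function.iterate_succ_apply']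
    rfl

lemma ev (C : ℝ) : ∀ᶠ z : ℝ in atTop, C * (Real.logb 2 z + 1) ^ 3 < z := by
  have h := (Real.isLittleO_pow_log_id_atTop (n := 3)).def
    (show (0 : ℝ) < (Real.log 2) ^ 3 / (16 * (|C| + 1)) by positivity)
  filter_upwards [h, eventually_ge_atTop (2 : ℝ)] with z hz h2
  have hl2 : 0 < Real.log 2 := Real.log_pos (by norm_num)
  have hlz : 0 ≤ Real.log z := Real.log_nonneg (by linarith)
  have hlog : 1 ≤ Real.logb 2 z := by
    rw [Real.le_logb_iff_rpow_le (by norm_num) (by linarith), Real.rpow_one]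
    exact h2
  rw [Real.norm_of_nonneg (by positivity), id, Real.norm_of_nonneg (by linarith)] at hz
  have e1 : Real.logb 2 z * Real.log 2 = Real.log z := by
    rw [Real.logb]; field_simp
  have h3 : (Real.logb 2 z + 1) ^ 3 ≤ 8 * (Real.logb 2 z) ^ 3 := by
    have : (Real.logb 2 z + 1) ^ 3 ≤ (2 * Real.logb 2 z) ^ 3 :=
      pow_le_pow_left₀ (by linarith) (by linarith) 3
    nlinarith
  have h4 : (Real.logb 2 z) ^ 3 * (Real.log 2) ^ 3 = (Real.log z) ^ 3 := by
    rw [← mul_pow, e1]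
  have h5 : (Real.logb 2 z) ^ 3 ≤ z / (16 * (|C| + 1)) := by
    have h6 : (Real.logb 2 z) ^ 3 * (Real.log 2) ^ 3 ≤ (z / (16 * (|C| + 1))) * (Real.log 2) ^ 3 := by
      rw [h4]
      calc _ ≤ _ := hz
        _ = _ := by ring
    exact le_of_mul_le_mul_right h6 (by positivity)
  have h7 : C * (Real.logb 2 z + 1) ^ 3 ≤ (|C| + 1) * (8 * (z / (16 * (|C| + 1)))) := by
    have hC : C ≤ |C| + 1 := by linarith [le_abs_self C]
    have h8 : 0 ≤ (Real.logb 2 z + 1) ^ 3 := by positivity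
    calc C * (Real.logb 2 z + 1) ^ 3 ≤ (|C| + 1) * (Real.logb 2 z + 1) ^ 3 :=
          mul_le_mul_of_nonneg_right hC h8
      _ ≤ (|C| + 1) * (8 * (z / (16 * (|C| + 1)))) := by
          refine mul_le_mul_of_nonneg_left (h3.trans ?_) (by positivity)
          linarith
  have h9 : (|C| + 1) * (8 * (z / (16 * (|C| + 1)))) = z / 2 := by
    have : (|C| + 1) ≠ 0 := by positivity
    field_simp
    ring
  linarith

/-- colourings exist -/
lemma exists_col (n d : ℕ) (hd : 1 ≤ d) : ∃ (m : ℕ) (c : Finset (Fin n) → Fin m),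
    ∀ S : Finset (Fin n), S.card = 2 * d →
      d + 1 ≤ ((S.powersetCard (2 * d - 1)).image c).card := by
  refine ⟨Fintype.card (Finset (Fin n)), Fintype.equivFin _, fun S hS => ?_⟩
  rw [Finset.card_image_of_injective _ (Fintype.equivFin _).injective,
    Finset.card_powersetCard, hS]
  have : (2 * d).choose (2 * d - 1) = 2 * d := by
    obtain ⟨a, ha⟩ : ∃ a, 2 * d = a + 1 := ⟨2 * d - 1, by omega⟩
    rw [ha, Nat.add_sub_cancel, Nat.choose_succ_self_right]
  omega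

/-- the explicit bound -/
theorem explicit {d : ℕ} (hd : 1 ≤ d) : ∃ C : ℝ, 1 ≤ C ∧ ∃ n₀ : ℕ, ∀ n : ℕ, n₀ ≤ n →
    ∀ (r : ℕ) (c : Finset (Fin n) → Fin r),
      (∀ S : Finset (Fin n), S.card = 2 * d →
        d + 1 ≤ ((S.powersetCard (2 * d - 1)).image c).card) →
      (Real.logb 2)^[d - 1] (n : ℝ) ≤ C * g r := by
  obtain ⟨C, hC, h⟩ := M_tw (d - 1)
  have hev : ∀ᶠ n : ℕ in atTop, ∀ i < d - 1, 0 < (Real.logb 2)^[i] (n : ℝ) := by
    have : ∀ i ∈ Finset.range (d - 1), ∀ᶠ n : ℕ in atTop, 0 < (Real.logb 2)^[i] (n : ℝ) :=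
      fun i _ => (tend i).eventually_gt_atTop 0
    filter_upwards [(Finset.eventually_all _).2 this] with n hn i hi
    exact hn i (Finset.mem_range.2 hi)
  obtain ⟨n₀, hn₀⟩ := eventually_atTop.1 hev
  refine ⟨C, hC, n₀, fun n hn r c hc => ?_⟩
  have hr : 1 ≤ r := by
    have := (c ∅).2
    omega
  have h1 := bound hd c hc
  have h2 := h r hr
  rw [show d - 1 + 1 = d by omega] at h2
  refine iter_le (d - 1) n (C * g r) ?_ (hn₀ n hn)
  have : (n : ℝ) ≤ M r d := by exact_mod_cast h1.le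
  linarith

/-- any number of iterated logarithms which is at least `d` is too many -/
theorem many {d s : ℕ} (hd : 1 ≤ d) (hs : d ≤ s) : ∃ n₀ : ℕ, ∀ n : ℕ, n₀ ≤ n →
    ∀ (r : ℕ) (c : Finset (Fin n) → Fin r),
      (∀ S : Finset (Fin n), S.card = 2 * d →
        d + 1 ≤ ((S.powersetCard (2 * d - 1)).image c).card) →
      (Real.logb 2)^[s] (n : ℝ) < r := by
  obtain ⟨C, hC, n₁, h1⟩ := explicit hd
  have hmono : ∀ t, d ≤ t → ∀ᶠ n : ℕ in atTop,
      (Real.logb 2)^[t] (n : ℝ) ≤ (Real.logb 2)^[d] (n : ℝ) := by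
    intro t ht
    induction t, ht using Nat.le_induction with
    | base => exact Eventually.of_forall fun n => le_refl _
    | succ t _ ih =>
      filter_upwards [ih, (tend t).eventually_ge_atTop 1] with n h2 h3
      refine le_trans ?_ h2
      rw [Function.iterate_succ_apply']
      generalize (Real.logb 2)^[t] (n : ℝ) = x at h3
      rw [Real.logb_le_iff_le_rpow (by norm_num) (by linarith)]
      have h4 := one_add_mul_self_le_rpow_one_add (s := 1) (by norm_num) h3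
      norm_num at h4
      linarith
  have hz := (tend (d - 1)).eventually (ev C)
  obtain ⟨n₂, h2⟩ := eventually_atTop.1 ((hmono s hs).and hz)
  refine ⟨max n₁ n₂, fun n hn r c hc => ?_⟩
  by_contra hlt
  rw [not_lt] at hlt
  have h3 := h1 n (le_trans (le_max_left _ _) hn) r c hc
  obtain ⟨h4, h5⟩ := h2 n (le_trans (le_max_right _ _) hn)
  have h6 : (Real.logb 2)^[d] (n : ℝ) = Real.logb 2 ((Real.logb 2)^[d - 1] (n : ℝ)) := by
    rw [← Function.iterate_succ_apply' (Real.logb 2), show (d - 1).succ = d by omega]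
  have h7 : (r : ℝ) ≤ Real.logb 2 ((Real.logb 2)^[d - 1] (n : ℝ)) := by
    rw [← h6]; linarith
  have hr : (0 : ℝ) ≤ r := Nat.cast_nonneg r
  have h8 : g r ≤ ((r : ℝ) + 1) ^ 3 := by
    unfold g
    have h9 : Real.logb 2 ((r : ℝ) + 1) ≤ (r : ℝ) + 1 := by
      rw [Real.logb_le_iff_le_rpow (by norm_num) (by linarith)]
      have h4 := one_add_mul_self_le_rpow_one_add (s := 1) (by norm_num)
        (show (1 : ℝ) ≤ (r : ℝ) + 1 by linarith)
      norm_num at h4
      linarith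
    calc ((r : ℝ) + 1) ^ 2 * Real.logb 2 ((r : ℝ) + 1) ≤ ((r : ℝ) + 1) ^ 2 * ((r : ℝ) + 1) :=
          mul_le_mul_of_nonneg_left h9 (by positivity)
      _ = _ := by ring
  have h10 : ((r : ℝ) + 1) ^ 3 ≤ (Real.logb 2 ((Real.logb 2)^[d - 1] (n : ℝ)) + 1) ^ 3 :=
    pow_le_pow_left₀ (by linarith) (by linarith) 3
  have h11 : C * g r ≤ C * (Real.logb 2 ((Real.logb 2)^[d - 1] (n : ℝ)) + 1) ^ 3 :=
    mul_le_mul_of_nonneg_left (h8.trans h10) (by linarith)
  linarith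

end Pool.Agent.TH226.LB
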