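import Mathlib
import Pool.Agent.TH226.LB.Ana

set_option autoImplicit false

/-!
# Lower bounds for `f_{2d-1}(n, 2d, d+1)`

Question: is it true that for every `s` there are `d` and `n₀` with
`f_{2d-1}(n, 2d, d+1) ≤ log^{(s)} n` for all `n ≥ n₀`? Here it is shown that such a `d` must be
larger than `s`: for every `d` the function is at least `(log^{(d-1)} n)^{1/2 - o(1)}`.
-/

namespace Pool.Agent.TH226.LB.Final

/-- `c` is a `(p, q)`-colouring of the complete `k`-uniform hypergraph on `n` vertices with `m`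
colours: among the `k`-subsets of any `p`-set at least `q` colours occur. (Only the values of `c`
on the `k`-subsets matter.) -/
def IsColouring (k p q : ℕ) {n m : ℕ} (c : Finset (Fin n) → Fin m) : Prop :=
  ∀ S : Finset (Fin n), S.card = p → q ≤ ((S.powersetCard k).image c).card

/-- `f_k(n, p, q)`: the least number of colours of a `(p, q)`-colouring. -/
noncomputable def f (k n p q : ℕ) : ℕ :=
  sInf {m : ℕ | ∃ c : Finset (Fin n) → Fin m, IsColouring k p q c}

/-- `M r 0 = 0` and `M r (j + 1) = M r j + r ^ C(M r j, 2 j) + 1`. -/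
def M (r : ℕ) : ℕ → ℕ
  | 0 => 0
  | j + 1 => M r j + (r ^ ((M r j).choose (2 * j)) + 1)

lemma M_eq (r j : ℕ) : M r j = Pool.Agent.TH226.LB.M r j := by
  induction j with
  | zero => rfl
  | succ j ih => rw [M, Pool.Agent.TH226.LB.M, ih]

/-- The minimum in the definition of `f` is attained. -/
lemma attained {d : ℕ} (hd : 1 ≤ d) (n : ℕ) :
    ∃ c : Finset (Fin n) → Fin (f (2 * d - 1) n (2 * d) (d + 1)),
      IsColouring (2 * d - 1) (2 * d) (d + 1) c := by
  have h : {m : ℕ | ∃ c : Finset (Fin n) → Fin m,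
      IsColouring (2 * d - 1) (2 * d) (d + 1) c}.Nonempty :=
    Pool.Agent.TH226.LB.exists_col n d hd
  exact Nat.sInf_mem h

/-- Let `d ≥ 1` and let `f` stand for `f_{2d-1}(n, 2d, d+1)`.
* the minimum `f` is attained for every `n`, and `n < M f d` (an exponential tower of height
  `d - 1` in `f`);
* there are `C` and `n₀` with `log^{(d-1)} n ≤ C (f + 1)² log (f + 1)` for all `n ≥ n₀`;
* for every `s ≥ d` there is `n₀` with `log^{(s)} n < f` for all `n ≥ n₀`. -/
theorem lower_bound (d : ℕ) (hd : 1 ≤ d) :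
    (∀ n : ℕ, (∃ c : Finset (Fin n) → Fin (f (2 * d - 1) n (2 * d) (d + 1)),
      IsColouring (2 * d - 1) (2 * d) (d + 1) c) ∧
      n < M (f (2 * d - 1) n (2 * d) (d + 1)) d) ∧
    (∃ C : ℝ, ∃ n₀ : ℕ, ∀ n : ℕ, n₀ ≤ n → (Real.logb 2)^[d - 1] (n : ℝ) ≤
      C * (((f (2 * d - 1) n (2 * d) (d + 1) : ℝ) + 1) ^ 2 *
        Real.logb 2 ((f (2 * d - 1) n (2 * d) (d + 1) : ℝ) + 1))) ∧
    ∀ s : ℕ, d ≤ s → ∃ n₀ : ℕ, ∀ n : ℕ, n₀ ≤ n →
      (Real.logb 2)^[s] (n : ℝ) < f (2 * d - 1) n (2 * d) (d + 1) := by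
  refine ⟨fun n => ?_, ?_, fun s hs => ?_⟩
  · obtain ⟨c, hc⟩ := attained hd n
    refine ⟨⟨c, hc⟩, ?_⟩
    rw [M_eq]
    exact Pool.Agent.TH226.LB.bound hd c hc
  · obtain ⟨C, -, n₀, h⟩ := Pool.Agent.TH226.LB.explicit hd
    refine ⟨C, n₀, fun n hn => ?_⟩
    obtain ⟨c, hc⟩ := attained hd n
    exact h n hn _ c hc
  · obtain ⟨n₀, h⟩ := Pool.Agent.TH226.LB.many hd hs
    refine ⟨n₀, fun n hn => ?_⟩
    obtain ⟨c, hc⟩ := attained hd n
    exact h n hn _ c hc

end Pool.Agent.TH226.LB.Final
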